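import Pool.Agent.Run7.h900.BR.Defs

/-!
# Piece DATA of project BR: a group with a normal subgroup `ℤⁿ`
-/

set_option autoImplicit false
set_option linter.unusedSectionVars false

namespace Run7.h824.BR

open Pool.Agent.Run7.h900.BR

section

variable {Λ : Type} [Group Λ] {A : Subgroup Λ} [A.Normal] {n : ℕ}
  (e : A ≃* Multiplicative (Fin n → ℤ))

/-- coordinates -/
def ev (a : A) : Fin n → ℤ := Multiplicative.toAdd (e a)

lemma ev_mul (a b : A) : ev e (a * b) = ev e a + ev e b := by simp [ev]

lemma ev_one : ev e 1 = 0 := by simp [ev]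

lemma ev_inj {a b : A} (h : ev e a = ev e b) : a = b :=
  e.injective (Multiplicative.toAdd.injective h)

lemma ev_symm (x : Fin n → ℤ) : ev e (e.symm (Multiplicative.ofAdd x)) = x := by simp [ev]

include e in
lemma comm_A (a b : A) : a * b = b * a := ev_inj e (by rw [ev_mul, ev_mul, add_comm])

/-- conjugation in coordinates -/
def Lc (g : Λ) : (Fin n → ℤ) →ₗ[ℤ] (Fin n → ℤ) :=
  AddMonoidHom.toIntLinearMap
    { toFun := fun x => ev e (MulAut.conjNormal g (e.symm (Multiplicative.ofAdd x)))
      map_zero' := by simp [ev]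
      map_add' := by intro x y; simp [ev] }

lemma Lc_ev (g : Λ) (a : A) : Lc e g (ev e a) = ev e (MulAut.conjNormal g a) := by
  simp [Lc, ev]

lemma exists_ev (x : Fin n → ℤ) : ∃ a : A, ev e a = x := ⟨_, ev_symm e x⟩

lemma Lc_mul (g h : Λ) : Lc e (g * h) = Lc e g ∘ₗ Lc e h := by
  apply LinearMap.ext
  intro x
  obtain ⟨a, rfl⟩ := exists_ev e x
  rw [LinearMap.comp_apply, Lc_ev, Lc_ev, Lc_ev, map_mul, MulAut.mul_apply]

lemma Lc_mem (b : A) : Lc e (b : Λ) = LinearMap.id := by
  apply LinearMap.ext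
  intro x
  obtain ⟨a, rfl⟩ := exists_ev e x
  rw [Lc_ev, LinearMap.id_apply]
  congr 1
  apply Subtype.ext
  rw [MulAut.conjNormal_apply]
  have h := congrArg Subtype.val (comm_A e b a)
  simp only [Subgroup.coe_mul] at h
  rw [h, mul_inv_cancel_right]

lemma Lc_one : Lc e (1 : Λ) = LinearMap.id := Lc_mem e 1

lemma Lc_eq {g h : Λ} (hgh : (g : Λ ⧸ A) = (h : Λ ⧸ A)) : Lc e g = Lc e h := by
  have hm : g⁻¹ * h ∈ A := QuotientGroup.eq.1 hgh
  have h1 : h = g * ((⟨g⁻¹ * h, hm⟩ : A) : Λ) := by simp
  rw [h1, Lc_mul, Lc_mem]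
  rfl

lemma act_Lc (g : Λ) (x : Fin n → ℤ) : act (LinearMap.toMatrix' (Lc e g)) x = Lc e g x := by
  have h := LinearMap.toMatrix'_mulVec (Lc e g) x
  rw [← h]
  funext i
  simp [act, Matrix.mulVec, dotProduct]

open Classical in
/-- the normalised section -/
noncomputable def sec (f : Λ ⧸ A) : Λ := if f = 1 then 1 else f.out

lemma sec_one : sec (1 : Λ ⧸ A) = 1 := by simp [sec]

lemma mk_sec (f : Λ ⧸ A) : ((sec f : Λ) : Λ ⧸ A) = f := by
  unfold sec
  split_ifs with h
  · rw [h]
    rfl
  · exact QuotientGroup.out_eq' f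

/-- the cocycle -/
noncomputable def gam (f g : Λ ⧸ A) : A :=
  ⟨sec f * sec g * (sec (f * g))⁻¹, by
    rw [← QuotientGroup.eq_one_iff]
    rw [QuotientGroup.mk_mul, QuotientGroup.mk_mul, QuotientGroup.mk_inv, mk_sec, mk_sec, mk_sec,
      mul_inv_cancel]⟩

/-- the data -/
noncomputable def dat : Dat n (Λ ⧸ A) where
  ρ f := LinearMap.toMatrix' (Lc e (sec f))
  ρ_one := by rw [sec_one, Lc_one, LinearMap.toMatrix'_id]
  ρ_mul f g := by
    rw [← LinearMap.toMatrix'_comp, ← Lc_mul]
    congr 1
    apply Lc_eq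
    rw [QuotientGroup.mk_mul, mk_sec, mk_sec, mk_sec]
  γ f g := ev e (gam f g)
  γ_left g := by
    rw [← ev_one e]
    congr 1
    apply Subtype.ext
    simp [gam, sec_one]
  γ_right g := by
    rw [← ev_one e]
    congr 1
    apply Subtype.ext
    simp [gam, sec_one]
  coc f g h := by
    rw [act_Lc, Lc_ev, ← ev_mul, ← ev_mul]
    congr 1
    apply Subtype.ext
    simp only [Subgroup.coe_mul, MulAut.conjNormal_apply, gam, mul_assoc f g h]
    group

/-- the element `g * (sec g)⁻¹` -/
noncomputable def rem (g : Λ) : A :=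
  ⟨g * (sec (g : Λ ⧸ A))⁻¹, by
    rw [← QuotientGroup.eq_one_iff]
    rw [QuotientGroup.mk_mul, QuotientGroup.mk_inv, mk_sec, mul_inv_cancel]⟩

end

theorem t_DATA : S_DATA := by
  intro Λ _ A _ n e
  refine ⟨dat e, ?_, ?_⟩
  · exact
      { toFun := fun g => mk (dat e) ℤ 1 (ev e (rem g)) (g : Λ ⧸ A)
        invFun := fun z => ((e.symm (Multiplicative.ofAdd z.1) : A) : Λ) * sec z.2
        left_inv := by
          intro g
          change ((e.symm (Multiplicative.ofAdd (ev e (rem g))) : A) : Λ) * sec (g : Λ ⧸ A) = g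
          have h1 : e.symm (Multiplicative.ofAdd (ev e (rem g))) = rem g := by
            apply ev_inj e
            rw [ev_symm]
          rw [h1]
          simp [rem]
        right_inv := by
          rintro ⟨x, f⟩
          have h1 : ((((e.symm (Multiplicative.ofAdd x) : A) : Λ) * sec f : Λ) : Λ ⧸ A) = f := by
            rw [QuotientGroup.mk_mul, mk_sec,
              (QuotientGroup.eq_one_iff _).2 (e.symm (Multiplicative.ofAdd x)).2, one_mul]
          refine Prod.ext ?_ h1
          change ev e (rem (((e.symm (Multiplicative.ofAdd x) : A) : Λ) * sec f)) = x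
          have h2 : rem (((e.symm (Multiplicative.ofAdd x) : A) : Λ) * sec f) =
              e.symm (Multiplicative.ofAdd x) := by
            apply Subtype.ext
            simp only [rem]
            rw [h1, mul_inv_cancel_right]
          rw [h2, ev_symm]
        map_mul' := by
          intro g h
          rw [mk_mul]
          refine Prod.ext ?_ rfl
          change ev e (rem (g * h)) = ev e (rem g) +
            act (LinearMap.toMatrix' (Lc e (sec (g : Λ ⧸ A)))) (ev e (rem h)) +
              vec 1 (ev e (gam (g : Λ ⧸ A) (h : Λ ⧸ A)))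
          rw [vec_one, act_Lc, Lc_ev, ← ev_mul, ← ev_mul]
          congr 1
          apply Subtype.ext
          simp only [Subgroup.coe_mul, MulAut.conjNormal_apply, gam, rem, QuotientGroup.mk_mul]
          group }
  · intro g
    rfl

end Run7.h824.BR
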